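import Pool.Agent.Helper5.SX.St

set_option autoImplicit false

/-! Project SX: module FCD (number of forbidden colours). -/

namespace Pool.Agent.Helper26.SX

open _root_.SX
open Finset
open scoped Classical

theorem hFCD : StFCD := by
  intro V _ A c y l x hst
  have hsub : Fb A c y l x ⊆ ((A.N x).filter (fun z => z ∉ Mk A c)).image c ∪
      ((A.N x).filter (fun m => m ∈ Mk A c)).biUnion
        (fun m => ((Ico 1 l).filter (fun i => A.b (y i) = A.b m)).image (fun i => c (y i))) := by
    intro a ha
    unfold Fb at ha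
    rw [mem_filter, mem_range] at ha
    obtain ⟨hak, hal, h | h⟩ := ha
    · obtain ⟨z, hz, hza⟩ := h
      refine mem_union_left _ (mem_image.2 ⟨z, mem_filter.2 ⟨hz, ?_⟩, hza⟩)
      unfold Mk
      rw [mem_filter]
      rintro ⟨-, h1 | h1⟩
      · have h2 := hst.base.blank
        rw [← h1, hza] at h2
        omega
      · rw [hza] at h1
        exact hal h1
    · obtain ⟨m, hm, hmM, i, hi1, hil, hb, hc⟩ := h
      refine mem_union_right _ (mem_biUnion.2 ⟨m, mem_filter.2 ⟨hm, hmM⟩, ?_⟩)
      exact mem_image.2 ⟨i, mem_filter.2 ⟨mem_Ico.2 ⟨hi1, hil⟩, hb⟩, hc⟩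
  have h1 : (((A.N x).filter (fun m => m ∈ Mk A c)).biUnion
        (fun m => ((Ico 1 l).filter (fun i => A.b (y i) = A.b m)).image
          (fun i => c (y i)))).card ≤
      ((A.N x).filter (fun m => m ∈ Mk A c)).card + exc A c y l x := by
    refine card_biUnion_le.trans ?_
    unfold exc
    rw [card_eq_sum_ones, ← sum_add_distrib]
    refine sum_le_sum fun m _ => ?_
    refine card_image_le.trans ?_
    show kap A y l (A.b m) ≤ 1 + (kap A y l (A.b m) - 1)
    omega
  have h2 := card_le_card hsub
  have h3 := card_union_le (((A.N x).filter (fun z => z ∉ Mk A c)).image c)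
    (((A.N x).filter (fun m => m ∈ Mk A c)).biUnion
        (fun m => ((Ico 1 l).filter (fun i => A.b (y i) = A.b m)).image (fun i => c (y i))))
  have h4 : (((A.N x).filter (fun z => z ∉ Mk A c)).image c).card ≤
      ((A.N x).filter (fun z => z ∉ Mk A c)).card := card_image_le
  have h5 := card_filter_add_card_filter_not (s := A.N x) (fun m => m ∈ Mk A c)
  have h6 := A.deg x
  omega

end Pool.Agent.Helper26.SX
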